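import Mathlib

set_option autoImplicit false

namespace Pool.Agent.H.MP_be29a0_al

open Polynomial

lemma par {T : Type} [CommRing T] [IsDomain T] (c : T) (f : T[X])
    (hf : ∀ p q : T, p ^ 2 = f.eval c * q ^ 2 → p = 0 ∧ q = 0) :
    ∀ (n : ℕ) (P Q : T[X]), (P ^ 2 - f * Q ^ 2).natDegree = n → P ^ 2 - f * Q ^ 2 ≠ 0 →
      ∃ (j : ℕ) (P' Q' : T[X]), P ^ 2 - f * Q ^ 2 = (X - C c) ^ (2 * j) * (P' ^ 2 - f * Q' ^ 2) ∧
        (P' ^ 2 - f * Q' ^ 2).eval c ≠ 0 := by
  intro n
  induction n using Nat.strong_induction_on with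
  | _ n ih =>
    intro P Q hn h0
    by_cases he : (P ^ 2 - f * Q ^ 2).eval c = 0
    · have h1 : (P.eval c) ^ 2 = f.eval c * (Q.eval c) ^ 2 := by
        simp only [eval_sub, eval_pow, eval_mul] at he
        exact sub_eq_zero.mp he
      obtain ⟨hp, hq⟩ := hf _ _ h1
      obtain ⟨P1, rfl⟩ := dvd_iff_isRoot.mpr hp
      obtain ⟨Q1, rfl⟩ := dvd_iff_isRoot.mpr hq
      have e : ((X - C c) * P1) ^ 2 - f * ((X - C c) * Q1) ^ 2 =
          (X - C c) ^ 2 * (P1 ^ 2 - f * Q1 ^ 2) := by ring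
      rw [e] at hn h0
      have h2 : P1 ^ 2 - f * Q1 ^ 2 ≠ 0 := right_ne_zero_of_mul h0
      have h3 : (P1 ^ 2 - f * Q1 ^ 2).natDegree < n := by
        rw [natDegree_mul (left_ne_zero_of_mul h0) h2, natDegree_pow, natDegree_X_sub_C] at hn
        omega
      obtain ⟨j, P', Q', e1, e2⟩ := ih _ h3 P1 Q1 rfl h2
      refine ⟨j + 1, P', Q', ?_, e2⟩
      rw [e, e1]; ring
    · exact ⟨0, P, Q, by simp, he⟩

lemma rm {T : Type} [CommRing T] [IsDomain T] (c : T) (a : ℕ) (A : T[X]) (h : A.eval c ≠ 0) :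
    ((X - C c) ^ a * A).rootMultiplicity c = a := by
  have hA : A ≠ 0 := by rintro rfl; simp at h
  rw [rootMultiplicity_mul (mul_ne_zero (pow_ne_zero _ (X_sub_C_ne_zero c)) hA),
    rootMultiplicity_X_sub_C_pow, rootMultiplicity_eq_zero h]
  rfl

lemma canc {T : Type} [CommRing T] [IsDomain T] (c : T) (a b : ℕ) (A B : T[X])
    (hA : A.eval c ≠ 0) (hB : B.eval c ≠ 0) (h : (X - C c) ^ a * A = (X - C c) ^ b * B) :
    A = B := by
  have e : a = b := by rw [← rm c a A hA, h, rm c b B hB]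
  subst e
  exact mul_left_cancel₀ (pow_ne_zero _ (X_sub_C_ne_zero c)) h

lemma par_even {T : Type} [CommRing T] [IsDomain T] (c : T) (f : T[X])
    (hf : ∀ p q : T, p ^ 2 = f.eval c * q ^ 2 → p = 0 ∧ q = 0) (P Q : T[X])
    (h : P ^ 2 - f * Q ^ 2 ≠ 0) : Even ((P ^ 2 - f * Q ^ 2).rootMultiplicity c) := by
  obtain ⟨j, P', Q', e1, e2⟩ := par c f hf _ P Q rfl h
  rw [e1, rm c _ _ e2]
  exact even_two_mul j

lemma spec {T : Type} [CommRing T] [IsDomain T] (f : T)
    (hf : ∀ p q : T, p ^ 2 = f * q ^ 2 → p = 0 ∧ q = 0) (u P Q κ W : T[X])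
    (hu : u.eval 0 ≠ 0) (hκ : κ ≠ 0) (hW : W.eval 0 ≠ 0)
    (h : u * (P ^ 2 - C f * Q ^ 2) = κ ^ 2 * W) :
    ∃ p q z : T, z ≠ 0 ∧ u.eval 0 * (p ^ 2 - f * q ^ 2) = z ^ 2 * W.eval 0 := by
  have hW0 : W ≠ 0 := by rintro rfl; simp at hW
  have h0 : P ^ 2 - C f * Q ^ 2 ≠ 0 := by
    intro h0
    rw [h0, mul_zero] at h
    exact mul_ne_zero (pow_ne_zero _ hκ) hW0 h.symm
  obtain ⟨j, P', Q', e1, e2⟩ := par 0 (C f) (by simpa using hf) _ P Q rfl h0
  obtain ⟨κ', e3, e4⟩ := exists_eq_pow_rootMultiplicity_mul_and_not_dvd κ hκ 0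
  have e5 : κ'.eval 0 ≠ 0 := fun h => e4 (dvd_iff_isRoot.mpr h)
  have e6 : u * (P' ^ 2 - C f * Q' ^ 2) = κ' ^ 2 * W := by
    apply canc 0 (2 * j) (2 * rootMultiplicity 0 κ)
    · rw [eval_mul]; exact mul_ne_zero hu e2
    · rw [eval_mul, eval_pow]; exact mul_ne_zero (pow_ne_zero _ e5) hW
    · have : κ ^ 2 = (X - C 0) ^ (2 * rootMultiplicity 0 κ) * κ' ^ 2 := by
        conv_lhs => rw [e3]
        ring
      rw [this, e1] at h
      linear_combination h
  refine ⟨P'.eval 0, Q'.eval 0, κ'.eval 0, e5, ?_⟩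
  have := congrArg (eval 0) e6
  simpa using this

lemma aniso {K : Type} [Field K] (u : K) (p q : K[X]) (h : p ^ 2 = (X ^ 3 + C u) * q ^ 2) :
    p = 0 ∧ q = 0 := by
  have hf : (X ^ 3 + C u : K[X]).natDegree = 3 := natDegree_X_pow_add_C
  have hq : q = 0 := by
    by_contra hq
    have hf0 : (X ^ 3 + C u : K[X]) ≠ 0 := by
      intro h0; rw [h0] at hf; simp at hf
    have := congrArg natDegree h
    rw [natDegree_pow, natDegree_mul hf0 (pow_ne_zero _ hq), natDegree_pow, hf] at this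
    omega
  subst hq
  simp at h
  exact ⟨h, rfl⟩

lemma red {k : Type} [Field k] (u : k[X]) (l b : RatFunc k)
    (h : b ^ 2 = l ^ 3 + algebraMap k[X] (RatFunc k) u) :
    ∃ p d w : k[X], d ≠ 0 ∧ IsCoprime p d ∧ w ^ 2 = p ^ 3 + u * d ^ 6 ∧
      l * algebraMap k[X] (RatFunc k) d ^ 2 = algebraMap k[X] (RatFunc k) p := by
  classical
  have inj := RatFunc.algebraMap_injective k
  set φ := algebraMap k[X] (RatFunc k) with hφ
  have hq0 : l.denom ≠ 0 := l.denom_ne_zero
  have hq1 : φ l.denom ≠ 0 := by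
    intro h0; exact hq0 (inj (by rw [h0, map_zero]))
  have hl : l * φ l.denom = φ l.num := by
    have := RatFunc.num_div_denom l
    rw [div_eq_iff hq1] at this
    exact this.symm
  have hco : IsCoprime l.num l.denom := RatFunc.isCoprime_num_denom l
  have hsq : (b * φ l.denom ^ 2) ^ 2 = φ (l.denom * (l.num ^ 3 + u * l.denom ^ 3)) := by
    rw [map_mul, map_add, map_mul, map_pow, map_pow, ← hl, mul_pow, h]; ring
  have hint : IsIntegral k[X] (b * φ l.denom ^ 2) := by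
    apply IsIntegral.of_pow (n := 2) (by norm_num)
    rw [hsq]; exact isIntegral_algebraMap
  obtain ⟨v, hv⟩ := IsIntegrallyClosed.isIntegral_iff.mp hint
  have hv2 : l.denom * (l.num ^ 3 + u * l.denom ^ 3) = v ^ 2 := by
    apply inj
    rw [← hsq, map_pow, hv]
  have hco2 : IsCoprime l.denom (l.num ^ 3 + u * l.denom ^ 3) := by
    have : IsCoprime l.denom (l.num ^ 3) := hco.symm.pow_right
    have e : l.num ^ 3 + u * l.denom ^ 3 = l.num ^ 3 + l.denom * (u * l.denom ^ 2) := by ring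
    rw [e]
    exact this.add_mul_left_right _
  obtain ⟨d0, hd0⟩ := exists_associated_pow_of_mul_eq_pow' hco2 hv2
  have hd00 : d0 ≠ 0 := by
    rintro rfl
    rw [zero_pow (by norm_num)] at hd0
    exact hq0 ((associated_zero_iff_eq_zero _).mp hd0.symm)
  set d := normalize d0 with hd
  have hdm : d.Monic := monic_normalize hd00
  have hdd : d ^ 2 = l.denom := by
    apply eq_of_monic_of_associated (hdm.pow 2) l.monic_denom
    exact ((normalize_associated d0).pow_pow).trans hd0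
  have hdne : d ≠ 0 := hdm.ne_zero
  have hdv : d ^ 2 ∣ v ^ 2 := ⟨_, by rw [← hv2, hdd]⟩
  obtain ⟨w, hw⟩ := (IsIntegrallyClosed.pow_dvd_pow_iff (by norm_num)).mp hdv
  refine ⟨l.num, d, w, hdne, ?_, ?_, ?_⟩
  · rw [← hdd] at hco
    exact (IsCoprime.pow_right_iff (by norm_num)).mp hco
  · rw [← hdd, hw] at hv2
    apply mul_left_cancel₀ (pow_ne_zero 2 hdne)
    linear_combination -hv2
  · rw [← map_pow, hdd, hl]

lemma nosq0 {F : Type} [Field F] [CharZero F] (l b : RatFunc F) :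
    b ^ 2 ≠ l ^ 3 + RatFunc.X := by
  classical
  intro h
  obtain ⟨p, d, w, hd, hco, he, -⟩ := red (X : F[X]) l b (by rw [h, RatFunc.algebraMap_X])
  have hX : (X * d ^ 6 : F[X]) ≠ 0 := mul_ne_zero X_ne_zero (pow_ne_zero _ hd)
  have dX : (X * d ^ 6 : F[X]).natDegree = 1 + 6 * d.natDegree := by
    rw [natDegree_mul X_ne_zero (pow_ne_zero _ hd), natDegree_pow, natDegree_X]
  have hp : p ≠ 0 := by
    rintro rfl
    have := congrArg natDegree he
    rw [zero_pow (by norm_num), zero_add, dX, natDegree_pow] at this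
    omega
  have hw : w ≠ 0 := by
    rintro rfl
    have e : p ^ 3 = -(X * d ^ 6) := by linear_combination -he
    have := congrArg natDegree e
    rw [natDegree_neg, dX, natDegree_pow] at this
    omega
  have hpX : IsCoprime p X := by
    apply IsCoprime.symm
    rw [(irreducible_X).coprime_iff_not_dvd]
    intro hXp
    have hXd : ¬ (X : F[X]) ∣ d := fun hh =>
      not_isUnit_X (hco.isUnit_of_dvd' hXp hh)
    obtain ⟨p1, rfl⟩ := hXp
    have h1 : (X : F[X]) ∣ w := by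
      apply prime_X.dvd_of_dvd_pow (n := 2)
      exact ⟨X ^ 2 * p1 ^ 3 + d ^ 6, by rw [he]; ring⟩
    obtain ⟨w1, rfl⟩ := h1
    have h2 : d ^ 6 = X * (w1 ^ 2 - X * p1 ^ 3) := by
      apply mul_left_cancel₀ (X_ne_zero (R := F))
      linear_combination -he
    exact hXd (prime_X.dvd_of_dvd_pow ⟨_, h2⟩)
  have hco3 : IsCoprime (p ^ 3) (X * d ^ 6) :=
    (hpX.mul_right hco.pow_right).pow_left
  have hsum : p ^ 3 + X * d ^ 6 + -(w ^ 2) = 0 := by linear_combination -he
  rcases Polynomial.abc (pow_ne_zero 3 hp) hX (neg_ne_zero.mpr (pow_ne_zero 2 hw)) hco3 hsum with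
    ⟨h1, h2, h3⟩ | ⟨-, h2, -⟩
  · have hr : UniqueFactorizationMonoid.radical (p ^ 3 * (X * d ^ 6) * -(w ^ 2)) ∣
        p * X * d * w := by
      have h5 : p ^ 3 * (X * d ^ 6) * -(w ^ 2) ∣ (p * X * d * w) ^ 6 :=
        ⟨-(p ^ 3 * X ^ 5 * w ^ 4), by ring⟩
      have hne : p * X * d * w ≠ 0 :=
        mul_ne_zero (mul_ne_zero (mul_ne_zero hp X_ne_zero) hd) hw
      refine (UniqueFactorizationMonoid.radical_dvd_radical h5 (pow_ne_zero _ hne)).trans ?_
      rw [UniqueFactorizationMonoid.radical_pow _ (by norm_num)]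
      exact UniqueFactorizationMonoid.radical_dvd_self
    have hne : p * X * d * w ≠ 0 :=
      mul_ne_zero (mul_ne_zero (mul_ne_zero hp X_ne_zero) hd) hw
    have h4 := natDegree_le_of_dvd hr hne
    rw [natDegree_mul (mul_ne_zero (mul_ne_zero hp X_ne_zero) hd) hw,
      natDegree_mul (mul_ne_zero hp X_ne_zero) hd, natDegree_mul hp X_ne_zero, natDegree_X] at h4
    rw [natDegree_pow] at h1
    rw [dX] at h2
    rw [natDegree_neg, natDegree_pow] at h3
    omega
  · have := Polynomial.derivative_eq_zero.mp h2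
    omega

lemma nosq {F : Type} [Field F] [CharZero F] (l b : RatFunc (RatFunc F)) :
    b ^ 2 ≠ l ^ 3 + algebraMap (RatFunc F) (RatFunc (RatFunc F)) RatFunc.X := by
  intro h
  have hch : CharZero (RatFunc F) := algebraRat.charZero _
  obtain ⟨p, d, w, hd, hco, he, -⟩ := red (C RatFunc.X : (RatFunc F)[X]) l b (by
    rw [h]; rfl)
  have key : ∃ p0 d0 w0 : RatFunc F, d0 ≠ 0 ∧ w0 ^ 2 = p0 ^ 3 + RatFunc.X * d0 ^ 6 := by
    refine ⟨p.leadingCoeff, d.leadingCoeff, w.leadingCoeff, leadingCoeff_ne_zero.mpr hd, ?_⟩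
    by_cases hp : p = 0
    · subst hp
      have := congrArg leadingCoeff he
      simpa using this
    by_cases hw : w = 0
    · subst hw
      have e : p ^ 3 = -(C RatFunc.X * d ^ 6) := by linear_combination -he
      have := congrArg leadingCoeff e
      simp only [leadingCoeff_pow, leadingCoeff_neg, leadingCoeff_mul, leadingCoeff_C] at this
      simp [this]
    obtain ⟨h1, h2, h3⟩ := Polynomial.flt_catalan (k := RatFunc F) (p := 3) (q := 6) (r := 2)
      (by norm_num) (by norm_num) (by norm_num) (by norm_num) (by norm_num) (by norm_num)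
      (by norm_num) hp hd hw hco (u := 1) (v := RatFunc.X) (w := -1) one_ne_zero
      RatFunc.X_ne_zero (by norm_num) (by simp only [map_one, map_neg]; linear_combination -he)
    rw [eq_C_of_natDegree_eq_zero h1, eq_C_of_natDegree_eq_zero h2,
      eq_C_of_natDegree_eq_zero h3] at he ⊢
    simp only [leadingCoeff_C]
    apply C_injective
    simpa using he
  obtain ⟨p0, d0, w0, h0, e⟩ := key
  apply nosq0 (p0 / d0 ^ 2) (w0 / d0 ^ 3)
  field_simp
  linear_combination e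

end Pool.Agent.H.MP_be29a0_al
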