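import Mathlib

set_option autoImplicit false

namespace Pool.Agent.H.MP_be29a0_al

inductive Ex (k : Type) (g : ℕ) : Type
  | const : k → Ex k g
  | var : Fin g → Ex k g
  | add : Ex k g → Ex k g → Ex k g
  | mul : Ex k g → Ex k g → Ex k g
  | inv : Ex k g → Ex k g

inductive Ev {k : Type} [Field k] {g : ℕ} {R : Type} [Ring R] [Algebra k R] (x : Fin g → R) :
    Ex k g → R → Prop
  | const (c : k) : Ev x (Ex.const c) (algebraMap k R c)
  | var (i : Fin g) : Ev x (Ex.var i) (x i)
  | add {s t : Ex k g} {a b : R} : Ev x s a → Ev x t b → Ev x (Ex.add s t) (a + b)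
  | mul {s t : Ex k g} {a b : R} : Ev x s a → Ev x t b → Ev x (Ex.mul s t) (a * b)
  | inv {s : Ex k g} {a b : R} : Ev x s a → a * b = 1 → b * a = 1 → Ev x (Ex.inv s) b

end Pool.Agent.H.MP_be29a0_al
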