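import Pool.Agent.H.MP_be29a0_al.A
import Pool.Agent.H.MP_be29a0_al.D

set_option autoImplicit false
set_option linter.unusedSimpArgs false

namespace Pool.Agent.H.MP_be29a0_al

open Polynomial Matrix

section alg
variable {R : Type} [CommRing R] {m : Type} [Fintype m] [DecidableEq m]

def cc (x y : Matrix m m R) : Matrix m m R := x * y - y * x
def gg (u : R) (x y : Matrix m m R) : Matrix m m R := x * x * x + u • (1 : Matrix m m R) - y * y
def NN (u μ : R) (x y : Matrix m m R) : Matrix (m ⊕ m) (m ⊕ m) R :=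
  fromBlocks (gg u x y) (-cc x y) (-(x * cc x y + cc x y * x) - μ • cc x y) (gg u x y)
def BB (μ w : R) (x y : Matrix m m R) : Matrix (m ⊕ m) (m ⊕ m) R :=
  fromBlocks (-(y + w • (1 : Matrix m m R))) (x - μ • (1 : Matrix m m R))
    (-(x * x + μ • x + (μ * μ) • (1 : Matrix m m R))) (y - w • (1 : Matrix m m R))

lemma BB_mul (u μ w : R) (h : w * w = μ ^ 3 + u) (x y : Matrix m m R) :
    BB μ (-w) x y * BB μ w x y = -NN u μ x y := by
  have hu : u = w * w - μ ^ 3 := by rw [h]; ring
  subst hu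
  unfold BB NN gg cc
  rw [fromBlocks_multiply, fromBlocks_neg]
  congr 1 <;>
  · simp only [mul_add, add_mul, mul_sub, sub_mul, neg_mul, mul_neg, smul_mul_assoc,
      mul_smul_comm, mul_one, one_mul, mul_assoc, neg_smul]
    module

lemma smul_one_map {S : Type} [CommRing S] (φ : R →+* S) (u : R) :
    φ.mapMatrix (u • (1 : Matrix m m R)) = φ u • (1 : Matrix m m S) := by
  ext i j
  by_cases h : i = j <;> simp [h]

lemma smul_map {S : Type} [CommRing S] (φ : R →+* S) (u : R) (x : Matrix m m R) :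
    φ.mapMatrix (u • x) = φ u • φ.mapMatrix x := by
  ext i j
  simp

lemma blocks_map {S : Type} [CommRing S] (φ : R →+* S) (a b c d : Matrix m m R) :
    φ.mapMatrix (fromBlocks a b c d) =
      fromBlocks (φ.mapMatrix a) (φ.mapMatrix b) (φ.mapMatrix c) (φ.mapMatrix d) := by
  simp only [RingHom.mapMatrix_apply, fromBlocks_map]

lemma cc_map {S : Type} [CommRing S] (φ : R →+* S) (x y : Matrix m m R) :
    φ.mapMatrix (cc x y) = cc (φ.mapMatrix x) (φ.mapMatrix y) := by
  simp only [cc, map_sub, map_mul]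

lemma gg_map {S : Type} [CommRing S] (φ : R →+* S) (u : R) (x y : Matrix m m R) :
    φ.mapMatrix (gg u x y) = gg (φ u) (φ.mapMatrix x) (φ.mapMatrix y) := by
  simp only [gg, map_sub, map_mul, map_add, smul_one_map]

lemma NN_map {S : Type} [CommRing S] (φ : R →+* S) (u μ : R) (x y : Matrix m m R) :
    φ.mapMatrix (NN u μ x y) = NN (φ u) (φ μ) (φ.mapMatrix x) (φ.mapMatrix y) := by
  simp only [NN, blocks_map, map_sub, map_mul, map_add, map_neg, smul_map, cc_map, gg_map]

lemma BB_map {S : Type} [CommRing S] (φ : R →+* S) (μ w : R) (x y : Matrix m m R) :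
    φ.mapMatrix (BB μ w x y) = BB (φ μ) (φ w) (φ.mapMatrix x) (φ.mapMatrix y) := by
  simp only [BB, blocks_map, map_sub, map_mul, map_add, map_neg, smul_map, map_one]

lemma normform (u μ : R) (x y : Matrix m m R) :
    ∃ P Q : R, (NN u μ x y).det = P ^ 2 - (μ ^ 3 + u) * Q ^ 2 := by
  let A := QuadraticAlgebra R (μ ^ 3 + u) 0
  let φ : R →+* A := algebraMap R A
  let σ : A →+* A := starRingEnd A
  let w : A := QuadraticAlgebra.omega
  have hw : w * w = φ μ ^ 3 + φ u := by
    rw [← map_pow, ← map_add]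
    exact QuadraticAlgebra.omega_mul_omega_eq_mk
  have hσ : ∀ r : R, σ (φ r) = φ r := by
    intro r
    show star (φ r) = φ r
    ext <;> simp [φ, A]
  have hσw : σ w = -w := by
    show star w = -w
    ext <;> simp [w, A]
  have hσm : ∀ z : Matrix m m R, σ.mapMatrix (φ.mapMatrix z) = φ.mapMatrix z := by
    intro z; ext1 i j; simp [hσ]
  set z := (BB (φ μ) w (φ.mapMatrix x) (φ.mapMatrix y)).det with hz
  have h1 : σ z = (BB (φ μ) (-w) (φ.mapMatrix x) (φ.mapMatrix y)).det := by
    rw [hz, RingHom.map_det, BB_map, hσ, hσw, hσm, hσm]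
  have h2 : σ z * z = φ (NN u μ x y).det := by
    rw [h1, hz, ← det_mul, BB_mul (φ u) (φ μ) w hw, RingHom.map_det, NN_map, det_neg]
    simp [← two_mul]
  refine ⟨z.re, z.im, ?_⟩
  have h3 := congrArg QuadraticAlgebra.re h2
  have h4 : σ z = star z := rfl
  rw [h4] at h3
  simp [φ, A] at h3
  rw [← h3]; ring

def aa (u : R) (x y ci : Matrix m m R) : Matrix m m R :=
  ci * gg u x y * (ci * gg u x y) - x - ci * x * cc x y

def JJ (R : Type) [CommRing R] (m : Type) [Fintype m] [DecidableEq m] :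
    Matrix (m ⊕ m) (m ⊕ m) R := fromBlocks 0 1 1 0

lemma JJ_sq : (JJ R m).det * (JJ R m).det = 1 := by
  rw [← det_mul, JJ, fromBlocks_multiply]
  simp

lemma schur (u μ : R) (x y ci : Matrix m m R) (h : cc x y * ci = 1) :
    (NN u μ x y).det * (JJ R m).det =
      (cc x y).det ^ 2 * (μ • (1 : Matrix m m R) - aa u x y ci).det := by
  have e : NN u μ x y * JJ R m * fromBlocks 1 (ci * gg u x y) 0 1 =
      fromBlocks (-cc x y) 0 (gg u x y) (-(cc x y * (μ • (1 : Matrix m m R) - aa u x y ci))) := by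
    unfold NN JJ aa
    generalize gg u x y = G
    generalize cc x y = C at h
    have h' : ∀ t : Matrix m m R, C * (ci * t) = t := by
      intro t; rw [← mul_assoc, h, one_mul]
    rw [fromBlocks_multiply, fromBlocks_multiply]
    congr 1 <;>
    · simp only [mul_add, add_mul, mul_sub, sub_mul, neg_mul, mul_neg, smul_mul_assoc,
        mul_smul_comm, mul_one, one_mul, mul_assoc, neg_smul, mul_zero, zero_mul, h', zero_add,
        add_zero]
      try module
  have e2 := congrArg det e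
  rw [det_mul, det_mul, det_fromBlocks_zero₂₁, det_fromBlocks_zero₁₂, ← det_mul (-cc x y),
    neg_mul_neg, det_mul, det_mul] at e2
  simp only [det_one, mul_one] at e2
  rw [e2]; ring

end alg

section ev
variable {k : Type} [Field k] {g : ℕ}

lemma Ev.uniq {R : Type} [Ring R] [Algebra k R] {x : Fin g → R} {s : Ex k g} {a : R}
    (h : Ev x s a) : ∀ {b : R}, Ev x s b → a = b := by
  induction h with
  | const c => intro b hb; cases hb; rfl
  | var i => intro b hb; cases hb; rfl
  | add _ _ i1 i2 => intro b hb; cases hb with | add h1 h2 => rw [i1 h1, i2 h2]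
  | mul _ _ i1 i2 => intro b hb; cases hb with | mul h1 h2 => rw [i1 h1, i2 h2]
  | inv _ h1 h2 i1 =>
    intro b hb
    cases hb with
    | inv h3 h4 h5 =>
      rw [← i1 h3] at h4
      exact left_inv_eq_right_inv h2 h4

lemma Ev.map {R S : Type} [Ring R] [Algebra k R] [Ring S] [Algebra k S] (φ : R →+* S)
    (hφ : ∀ c, φ (algebraMap k R c) = algebraMap k S c) {x : Fin g → R} {s : Ex k g} {a : R}
    (h : Ev x s a) : Ev (fun i => φ (x i)) s (φ a) := by
  induction h with
  | const c => rw [hφ]; exact Ev.const c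
  | var i => exact Ev.var (x := fun i => φ (x i)) i
  | add _ _ i1 i2 => rw [map_add]; exact Ev.add i1 i2
  | mul _ _ i1 i2 => rw [map_mul]; exact Ev.mul i1 i2
  | inv _ h1 h2 i1 =>
    exact Ev.inv i1 (by rw [← map_mul, h1, map_one]) (by rw [← map_mul, h2, map_one])

variable {K : Type} [Field K] [Algebra k K] {m : Type} [Fintype m] [DecidableEq m]

lemma alg_eq (c : k) :
    algebraMap k (Matrix m m K) c = algebraMap k K c • (1 : Matrix m m K) := by
  rw [Algebra.algebraMap_eq_smul_one, algebraMap_smul]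

lemma rat (Ξ : Fin g → Matrix m m K[X]) (c0 : K) {s : Ex k g} {B : Matrix m m K}
    (hB : Ev (fun i => (evalRingHom c0).mapMatrix (Ξ i)) s B) :
    ∃ (h : K[X]) (S : Matrix m m K[X]), h.eval c0 ≠ 0 ∧ ∀ c : K, h.eval c ≠ 0 →
      Ev (fun i => (evalRingHom c).mapMatrix (Ξ i)) s
        ((h.eval c)⁻¹ • (evalRingHom c).mapMatrix S) := by
  induction hB with
  | const c =>
    refine ⟨1, (C (algebraMap k K c) : K[X]) • 1, by simp, fun d _ => ?_⟩
    rw [smul_one_map]
    simp only [eval_one, inv_one, one_smul, coe_evalRingHom, eval_C]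
    rw [← alg_eq]
    exact Ev.const c
  | var i =>
    refine ⟨1, Ξ i, by simp, fun d _ => ?_⟩
    simp only [eval_one, inv_one, one_smul]
    exact Ev.var (x := fun i => (evalRingHom d).mapMatrix (Ξ i)) i
  | add _ _ i1 i2 =>
    obtain ⟨h1, S1, n1, e1⟩ := i1
    obtain ⟨h2, S2, n2, e2⟩ := i2
    refine ⟨h1 * h2, h2 • S1 + h1 • S2, by rw [eval_mul]; exact mul_ne_zero n1 n2,
      fun d hd => ?_⟩
    rw [eval_mul] at hd
    have d1 := left_ne_zero_of_mul hd
    have d2 := right_ne_zero_of_mul hd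
    convert Ev.add (e1 d d1) (e2 d d2) using 1
    rw [map_add, smul_map, smul_map, smul_add, smul_smul, smul_smul, eval_mul]
    simp only [coe_evalRingHom]
    congr 2 <;> field_simp
  | mul _ _ i1 i2 =>
    obtain ⟨h1, S1, n1, e1⟩ := i1
    obtain ⟨h2, S2, n2, e2⟩ := i2
    refine ⟨h1 * h2, S1 * S2, by rw [eval_mul]; exact mul_ne_zero n1 n2, fun d hd => ?_⟩
    rw [eval_mul] at hd
    have d1 := left_ne_zero_of_mul hd
    have d2 := right_ne_zero_of_mul hd
    convert Ev.mul (e1 d d1) (e2 d d2) using 1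
    rw [map_mul, smul_mul_assoc, mul_smul_comm, smul_smul, eval_mul, mul_inv]
  | @inv s a b ha h1 h2 i1 =>
    obtain ⟨h, S, n1, e1⟩ := i1
    have ea := ha.uniq (e1 c0 n1)
    have hdet : S.det.eval c0 ≠ 0 := by
      intro h0
      have h3 : ((evalRingHom c0).mapMatrix S).det = 0 := by
        rw [← RingHom.map_det]; exact h0
      have := congrArg det h1
      rw [det_mul, ea, det_smul, h3] at this
      simp at this
    refine ⟨h * S.det, (h * h) • S.adjugate, by rw [eval_mul]; exact mul_ne_zero n1 hdet,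
      fun d hd => ?_⟩
    rw [eval_mul] at hd
    have d1 := left_ne_zero_of_mul hd
    have d2 := right_ne_zero_of_mul hd
    have key : ((h.eval d)⁻¹ • (evalRingHom d).mapMatrix S) *
        ((eval d (h * S.det))⁻¹ • (evalRingHom d).mapMatrix ((h * h) • S.adjugate)) = 1 := by
      rw [smul_mul_assoc, mul_smul_comm, ← map_mul, mul_smul_comm, mul_adjugate, smul_smul,
        smul_smul, smul_one_map, smul_smul]
      simp only [coe_evalRingHom, eval_mul]
      have : (eval d h)⁻¹ * (eval d h * eval d S.det)⁻¹ * (eval d h * eval d h * eval d S.det)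
          = 1 := by field_simp
      rw [this, one_smul]
    exact Ev.inv (e1 d d1) key (mul_eq_one_comm.mp key)

def neg (s : Ex k g) : Ex k g := Ex.mul (Ex.const (-1)) s

lemma Ev.sub {R : Type} [Ring R] [Algebra k R] {x : Fin g → R} {s t : Ex k g} {a b : R}
    (h1 : Ev x s a) (h2 : Ev x t b) : Ev x (Ex.add s (neg t)) (a - b) := by
  have := Ev.add h1 (Ev.mul (Ev.const (-1)) h2)
  rwa [map_neg, map_one, neg_one_mul, ← sub_eq_add_neg] at this

def xx : Ex k 2 := Ex.var 0
def yy : Ex k 2 := Ex.var 1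
def ce : Ex k 2 := Ex.add (Ex.mul xx yy) (neg (Ex.mul yy xx))
def ge (u : k) : Ex k 2 :=
  Ex.add (Ex.add (Ex.mul (Ex.mul xx xx) xx) (Ex.const u)) (neg (Ex.mul yy yy))
def ee (u : k) : Ex k 2 :=
  Ex.add (Ex.add (Ex.mul (Ex.mul (Ex.inv ce) (ge u)) (Ex.mul (Ex.inv ce) (ge u))) (neg xx))
    (neg (Ex.mul (Ex.mul (Ex.inv ce) xx) ce))

lemma ev_ee (u : k) (x : Fin 2 → Matrix m m K) (ci : Matrix m m K)
    (h : cc (x 0) (x 1) * ci = 1) : Ev x (ee u) (aa (algebraMap k K u) (x 0) (x 1) ci) := by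
  have hx : Ev x (xx : Ex k 2) (x 0) := Ev.var 0
  have hy : Ev x (yy : Ex k 2) (x 1) := Ev.var 1
  have hc : Ev x (ce : Ex k 2) (cc (x 0) (x 1)) := (hx.mul hy).sub (hy.mul hx)
  have hi : Ev x (Ex.inv ce : Ex k 2) ci := hc.inv h (mul_eq_one_comm.mp h)
  have hg : Ev x (ge u) (gg (algebraMap k K u) (x 0) (x 1)) := by
    unfold gg
    rw [← alg_eq]
    exact (((hx.mul hx).mul hx).add (Ev.const u)).sub (hy.mul hy)
  exact (((hi.mul hg).mul (hi.mul hg)).sub hx).sub ((hi.mul hx).mul hc)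

lemma core (u : k) (hu : ∀ l b : K, b ^ 2 ≠ l ^ 3 + algebraMap k K u) [Infinite K]
    (s : Ex k 2) (hs : ∀ (Ξ : Fin 2 → Matrix m m K) (A B : Matrix m m K),
      Ev Ξ (ee u) A → Ev Ξ s B → A = B)
    (Z : Fin 2 → Matrix m m K) (hZ : (cc (Z 0) (Z 1)).det ≠ 0)
    (Ξ : Fin 2 → Matrix m m K) (B : Matrix m m K) (hB : Ev Ξ s B) (l : K) :
    Even (B.charpoly.rootMultiplicity l) := by
  set v := algebraMap k K u with hv
  let L : Fin 2 → Matrix m m K[X] := fun i =>
    (C : K →+* K[X]).mapMatrix (Ξ i) + (X : K[X]) • (C : K →+* K[X]).mapMatrix (Z i - Ξ i)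
  have evC : ∀ (c : K) (z : Matrix m m K),
      (evalRingHom c).mapMatrix ((C : K →+* K[X]).mapMatrix z) = z := by
    intro c z; ext i j; simp
  have L0 : ∀ i, (evalRingHom (0 : K)).mapMatrix (L i) = Ξ i := by
    intro i
    simp only [L, map_add, smul_map, evC]
    simp
  have L1 : ∀ i, (evalRingHom (1 : K)).mapMatrix (L i) = Z i := by
    intro i
    simp only [L, map_add, smul_map, evC]
    simp
  have hB' : Ev (fun i => (evalRingHom (0 : K)).mapMatrix (L i)) s B := by
    simp only [L0]; exact hB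
  obtain ⟨h, S, h0, hS⟩ := rat L 0 hB'
  have eB := hB'.uniq (hS 0 h0)
  let κ : K[X] := (cc (L 0) (L 1)).det
  have hκc : ∀ c : K, κ.eval c =
      (cc ((evalRingHom c).mapMatrix (L 0)) ((evalRingHom c).mapMatrix (L 1))).det := by
    intro c
    rw [← cc_map, ← RingHom.map_det]; rfl
  have hκ : κ ≠ 0 := by
    intro h0
    have := hκc 1
    rw [L1, L1, h0, eval_zero] at this
    exact hZ this.symm
  have hh : h ≠ 0 := by rintro rfl; simp at h0
  let ι : K[X] →+* K[X][X] := mapRingHom (C : K →+* K[X])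
  have hι : ∀ (c : K) (p : K[X]), (ι p).eval (C c) = C (p.eval c) := by
    intro c p
    simp only [ι, coe_mapRingHom, eval_map]
    exact eval₂_at_apply _ _
  have hιm : ∀ (c : K) (z : Matrix m m K[X]), (evalRingHom (C c : K[X])).mapMatrix (ι.mapMatrix z)
      = (C : K →+* K[X]).mapMatrix ((evalRingHom c).mapMatrix z) := by
    intro c z; ext1 i j
    exact hι c _
  obtain ⟨P, Q, hPQ⟩ := normform (C (C v) : K[X][X]) (C X) (ι.mapMatrix (L 0)) (ι.mapMatrix (L 1))
  let ε : K[X] := (JJ K[X] m).det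
  let W : K[X][X] := ((ι h * C X) • (1 : Matrix m m K[X][X]) - ι.mapMatrix S).det
  have hW : ∀ c : K, h.eval c ≠ 0 → W.eval (C c) = C (h.eval c) ^ Fintype.card m *
      ((h.eval c)⁻¹ • (evalRingHom c).mapMatrix S).charpoly := by
    intro c hc
    have : W.eval (C c) = (evalRingHom (C c : K[X])) W := rfl
    rw [this, RingHom.map_det, map_sub, smul_one_map, hιm, charpoly, ← det_smul]
    congr 1
    ext1 i j
    simp only [map_mul, coe_evalRingHom, hι, eval_C, charmatrix_apply, Matrix.sub_apply,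
      Matrix.smul_apply, RingHom.mapMatrix_apply, map_apply, smul_eq_mul, mul_sub]
    rw [← mul_assoc, ← C_mul, mul_inv_cancel₀ hc, C_1, one_mul]
    rcases eq_or_ne i j with rfl | hij
    · simp [Matrix.one_apply]
    · simp [hij]
  have main : (ι h ^ Fintype.card m * C ε) * (P ^ 2 - C (X ^ 3 + C v) * Q ^ 2) = ι κ ^ 2 * W := by
    apply eq_of_infinite_eval_eq
    have hfin : {c : K | (h * κ).IsRoot c}.Finite :=
      Set.not_infinite.mp fun hi => mul_ne_zero hh hκ (eq_zero_of_infinite_isRoot _ hi)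
    refine Set.Infinite.mono ?_ ((hfin.infinite_compl).image (C_injective.injOn))
    rintro _ ⟨c, hc, rfl⟩
    simp only [Set.mem_compl_iff, Set.mem_ofPred_eq, IsRoot, eval_mul] at hc
    have c1 := left_ne_zero_of_mul hc
    have c2 := right_ne_zero_of_mul hc
    set x := (evalRingHom c).mapMatrix (L 0) with hx
    set y := (evalRingHom c).mapMatrix (L 1) with hy
    have hci : cc x y * (cc x y)⁻¹ = 1 :=
      mul_nonsing_inv _ (by rw [← hκc]; exact c2.isUnit)
    have e1 := hs _ _ _ (ev_ee u (fun i => (evalRingHom c).mapMatrix (L i)) _ hci) (hS c c1)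
    have e2 := schur (C v : K[X]) X ((C : K →+* K[X]).mapMatrix x) ((C : K →+* K[X]).mapMatrix y)
      ((C : K →+* K[X]).mapMatrix (cc x y)⁻¹) (by rw [← cc_map, ← map_mul, hci, map_one])
    have e3 : aa (C v : K[X]) ((C : K →+* K[X]).mapMatrix x) ((C : K →+* K[X]).mapMatrix y)
        ((C : K →+* K[X]).mapMatrix (cc x y)⁻¹) =
        (C : K →+* K[X]).mapMatrix (aa v x y (cc x y)⁻¹) := by
      simp only [aa, map_sub, map_mul, cc_map, gg_map]
    have e4 : ((X : K[X]) • (1 : Matrix m m K[X]) -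
        (C : K →+* K[X]).mapMatrix (aa v x y (cc x y)⁻¹)).det =
        (aa v x y (cc x y)⁻¹).charpoly := by
      rw [charpoly, charmatrix]
      congr 2
      ext1 i j
      by_cases hij : i = j <;> simp [hij]
    have e5 := congrArg (evalRingHom (C c : K[X])) hPQ
    rw [RingHom.map_det, NN_map, hιm, hιm, ← hx, ← hy] at e5
    rw [e3, e4, ← cc_map, ← RingHom.map_det, ← hκc] at e2
    simp only [coe_evalRingHom, eval_C, eval_sub, eval_mul, eval_pow, eval_add] at e5
    simp only [Set.mem_ofPred_eq, eval_mul, eval_pow, eval_sub, eval_C, hι]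
    rw [hW c c1, ← e1, ← e5]
    simp only [ε]
    linear_combination C (eval c h) ^ Fintype.card m * e2
  have hε : ε * ε = 1 := JJ_sq
  have hε0 : ε ≠ 0 := left_ne_zero_of_mul_eq_one hε
  have hW0 := hW 0 h0
  rw [← eB, C_0] at hW0
  have hι0 := hι 0 h
  rw [C_0] at hι0
  have hC0 : (C (h.eval 0) : K[X]) ^ Fintype.card m ≠ 0 := pow_ne_zero _ (C_ne_zero.mpr h0)
  have hch : B.charpoly ≠ 0 := B.charpoly_monic.ne_zero
  obtain ⟨p, q, z, hz, e⟩ := spec (X ^ 3 + C v) (aniso v) _ P Q _ W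
    (by rw [eval_mul, eval_pow, hι0, eval_C]; exact mul_ne_zero hC0 hε0)
    (by
      intro h0
      exact hκ (Polynomial.map_injective _ C_injective (by rw [Polynomial.map_zero]; exact h0)))
    (by rw [hW0]; exact mul_ne_zero hC0 hch) main
  rw [eval_mul, eval_pow, hι0, eval_C, hW0] at e
  have e' : ε * (p ^ 2 - (X ^ 3 + C v) * q ^ 2) = z * (z * B.charpoly) := by
    apply mul_left_cancel₀ hC0
    linear_combination e
  have hne : z * (z * B.charpoly) ≠ 0 := mul_ne_zero hz (mul_ne_zero hz hch)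
  have hev := par_even l (X ^ 3 + C v) (by
    intro a b hab
    simp only [eval_add, eval_pow, eval_X, eval_C] at hab
    have hb : b = 0 := by
      by_contra hb
      apply hu l (a / b)
      field_simp
      linear_combination hab
    subst hb
    simpa using hab) p q (right_ne_zero_of_mul (e' ▸ hne))
  have hεl : ε.rootMultiplicity l = 0 := by
    apply rootMultiplicity_eq_zero
    intro h0
    have := congrArg (eval l) hε
    rw [eval_mul, h0] at this
    simp at this
  have := congrArg (rootMultiplicity l) e'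
  rw [rootMultiplicity_mul (e' ▸ hne), rootMultiplicity_mul hne,
    rootMultiplicity_mul (right_ne_zero_of_mul hne), hεl] at this
  obtain ⟨t, ht⟩ := hev
  rw [Nat.even_iff]
  omega

lemma point {K : Type} [Field K] [CharZero K] :
    IsUnit (cc (!![0, 1, 0; 0, 0, 1; 0, 0, 0] : Matrix (Fin 3) (Fin 3) K)
      !![0, 0, 0; 1, 0, 0; 0, 2, 0]) := by
  rw [Matrix.isUnit_iff_isUnit_det, isUnit_iff_ne_zero]
  simp [cc, Matrix.det_fin_three]
  norm_num

theorem final [CharZero K] (u : k) (hu : ∀ l b : K, b ^ 2 ≠ l ^ 3 + algebraMap k K u) :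
    (∃ (n : ℕ) (Ξ : Fin 2 → Matrix (Fin n) (Fin n) K) (A : Matrix (Fin n) (Fin n) K),
      0 < n ∧ Ev Ξ (ee u) A) ∧
    ∀ s : Ex k 2, (∀ (n : ℕ) (Ξ : Fin 2 → Matrix (Fin n) (Fin n) K)
      (A B : Matrix (Fin n) (Fin n) K), Ev Ξ (ee u) A → Ev Ξ s B → A = B) →
      ∀ (n : ℕ) (Ξ : Fin 2 → Matrix (Fin n) (Fin n) K) (B : Matrix (Fin n) (Fin n) K),
        Ev Ξ s B → ∀ l : K, Even (B.charpoly.rootMultiplicity l) := by
  let Z : Fin 2 → Matrix (Fin 3) (Fin 3) K :=
    ![!![0, 1, 0; 0, 0, 1; 0, 0, 0], !![0, 0, 0; 1, 0, 0; 0, 2, 0]]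
  have hZ : IsUnit (cc (Z 0) (Z 1)) := point
  refine ⟨⟨3, Z, _, by norm_num, ev_ee u Z _ hZ.mul_val_inv⟩, ?_⟩
  intro s hs n Ξ B hB l
  have hs' : ∀ (Ξ : Fin 2 → Matrix (Fin n × Fin 3) (Fin n × Fin 3) K)
      (A B : Matrix (Fin n × Fin 3) (Fin n × Fin 3) K), Ev Ξ (ee u) A → Ev Ξ s B → A = B := by
    intro Ξ A B hA hB
    let e := reindexAlgEquiv k K (finProdFinEquiv (m := n) (n := 3))
    apply e.injective
    exact hs _ _ _ _ (hA.map e.toAlgHom.toRingHom e.commutes)
      (hB.map e.toAlgHom.toRingHom e.commutes)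
  let φ : Matrix (Fin n) (Fin n) K →+* Matrix (Fin n × Fin 3) (Fin n × Fin 3) K :=
    (blockDiagonalRingHom (Fin n) (Fin 3) K).comp (Pi.constRingHom (Fin 3) _)
  let ψ : Matrix (Fin 3) (Fin 3) K →+* Matrix (Fin n × Fin 3) (Fin n × Fin 3) K :=
    (reindexRingEquiv K (Equiv.prodComm (Fin 3) (Fin n))).toRingHom.comp
      ((blockDiagonalRingHom (Fin 3) (Fin n) K).comp (Pi.constRingHom (Fin n) _))
  have hφ : ∀ c, φ (algebraMap k _ c) = algebraMap k _ c := by
    intro c
    rw [alg_eq, alg_eq]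
    ext ⟨i, a⟩ ⟨j, b⟩
    simp only [φ, RingHom.comp_apply, blockDiagonalRingHom_apply, blockDiagonal_apply,
      Pi.constRingHom_apply, Function.const, Matrix.smul_apply, Matrix.one_apply, Prod.mk.injEq]
    by_cases h1 : i = j <;> by_cases h2 : a = b <;> simp [h1, h2]
  have hψ : (cc (ψ (Z 0)) (ψ (Z 1))).det ≠ 0 := by
    have := hZ.map ψ
    rw [cc, map_sub, map_mul, map_mul, Matrix.isUnit_iff_isUnit_det] at this
    exact this.ne_zero
  have h := core u hu s hs' (fun i => ψ (Z i)) hψ _ _ (hB.map φ hφ) l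
  have hc : (φ B).charpoly = B.charpoly * (B.charpoly * B.charpoly) := by
    have : (φ B).charmatrix = blockDiagonal (fun _ : Fin 3 => B.charmatrix) := by
      ext1 ⟨i, a⟩ ⟨j, b⟩
      simp only [φ, RingHom.comp_apply, blockDiagonalRingHom_apply, blockDiagonal_apply,
        Pi.constRingHom_apply, Function.const, charmatrix_apply, diagonal_apply, Prod.mk.injEq]
      by_cases h1 : i = j <;> by_cases h2 : a = b <;> simp [h1, h2]
    rw [charpoly, this, det_blockDiagonal, Fin.prod_univ_three, charpoly, mul_assoc]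
  have hch : B.charpoly ≠ 0 := B.charpoly_monic.ne_zero
  rw [hc, rootMultiplicity_mul (mul_ne_zero hch (mul_ne_zero hch hch)),
    rootMultiplicity_mul (mul_ne_zero hch hch)] at h
  obtain ⟨t, ht⟩ := h
  rw [Nat.even_iff]
  omega

end ev

end Pool.Agent.H.MP_be29a0_al
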